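import Pool.Agent.Lib.helper22.Lind

namespace Pool.Agent.H.MP_adcce9_an

open Filter Topology Finset

variable {X : Type*} [NormedAddCommGroup X] [NormedSpace ℝ X] {f : ℕ → ℚ}
  {J : (ℕ →₀ ℝ) →ₗ[ℝ] X}

theorem up {a c : ℕ →₀ ℝ} {N : ℕ} {δ : ℝ} (ha : ∀ i, N ≤ i → a i = 0)
    (hc : ∑ i ∈ range N, |c i| ≤ δ) (C : Finset ℕ) : ∑ i ∈ C, |(a + c) i| ≤
      ∑ i ∈ C with i < N, |a i| + δ + ∑ i ∈ C with ¬ i < N, |c i| := by
  rw [← sum_filter_add_sum_filter_not C (· < N)]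
  refine add_le_add ((sum_le_sum fun i _ => abs_add_le (a i) (c i)).trans ?_)
    (sum_le_sum fun i hi => by simp [ha i (not_lt.1 (mem_filter.1 hi).2)])
  rw [sum_add_distrib]
  exact add_le_add le_rfl ((sum_le_sum_of_subset_of_nonneg
    (fun i hi => mem_range.2 (mem_filter.1 hi).2) fun _ _ _ => abs_nonneg _).trans hc)

theorem low (h : ∀ a (C : Finset ℕ), StrictMonoOn f C → ∑ i ∈ C, |a i| ≤ ‖J a‖)
    {a c : ℕ →₀ ℝ} {N : ℕ} {δ : ℝ} (ha : ∀ i, N ≤ i → a i = 0)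
    (hc : ∑ i ∈ range N, |c i| ≤ δ) {C D : Finset ℕ} (hC : StrictMonoOn f C) (hD : StrictMonoOn f D)
    (hf : ∀ i ∈ C, i < N → ∀ j ∈ D, ¬ j < N → f i < f j) :
    ∑ i ∈ C with i < N, |a i| + ∑ i ∈ D with ¬ i < N, |c i| ≤ ‖J (a + c)‖ + δ := by
  have h1 := h (a + c) (C.filter (· < N) ∪ D.filter (¬ · < N)) fun i hi j hj hij => by
    simp only [coe_union, coe_filter, Set.mem_union, Set.mem_ofPred_eq] at hi hj
    rcases hi with hi | hi <;> rcases hj with hj | hj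
    · exact hC hi.1 hj.1 hij
    · exact hf i hi.1 hi.2 j hj.1 hj.2
    · exact absurd (hij.trans hj.2) hi.2
    · exact hD hi.1 hj.1 hij
  rw [sum_union (disjoint_left.2 fun i h1 h2 =>
    absurd (mem_filter.1 h1).2 (mem_filter.1 h2).2)] at h1
  have h2 : ∑ i ∈ D with ¬ i < N, |c i| = ∑ i ∈ D with ¬ i < N, |(a + c) i| :=
    sum_congr rfl fun i hi => by simp [ha i (not_lt.1 (mem_filter.1 hi).2)]
  have h3 : ∑ i ∈ C with i < N, |a i| ≤ ∑ i ∈ C with i < N, (|(a + c) i| + |c i|) :=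
    sum_le_sum fun i _ => by simpa using abs_sub (a i + c i) (c i)
  have h4 : ∑ i ∈ C with i < N, |c i| ≤ δ := (sum_le_sum_of_subset_of_nonneg
    (fun i hi => mem_range.2 (mem_filter.1 hi).2) fun _ _ _ => abs_nonneg _).trans hc
  rw [sum_add_distrib] at h3
  linarith

theorem pick (hJ : DenseRange J)
    (h : ∀ a (C : Finset ℕ), StrictMonoOn f C → ∑ i ∈ C, |a i| ≤ ‖J a‖) (z : ℕ → X)
    (hz : ∀ k l, k ≠ l → ‖z k - z l‖ ≤ 1) (N : ℕ) {δ : ℝ} (hδ : 0 < δ) :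
    ∃ k l c, k ≠ l ∧ ‖J c - (z k - z l)‖ ≤ 2 * δ ∧ ∑ i ∈ range N, |c i| ≤ δ := by
  choose a ha using fun k => hJ.exists_dist_lt (z k) hδ
  have b : ∀ k l, ‖J (a k - a l) - (z k - z l)‖ ≤ 2 * δ := fun k l => by
    have := norm_sub_le (z l - J (a l)) (z k - J (a k))
    rw [show z l - J (a l) - (z k - J (a k)) = J (a k - a l) - (z k - z l) by rw [map_sub]; abel,
      ← dist_eq_norm (z l), ← dist_eq_norm (z k)] at this
    linarith [ha k, ha l]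
  obtain ⟨p, -, φ, h1, h2⟩ := (isCompact_closedBall (0 : Fin N → ℝ) (1 + 2 * δ)).tendsto_subseq
    (x := fun k (i : Fin N) => (a (k + 1) - a 0) i) fun k => by
      rw [mem_closedBall_zero_iff, pi_norm_le_iff_of_nonneg (by positivity)]
      intro i
      have h3 := h (a (k + 1) - a 0) {i.1} (by simp [Set.strictMonoOn_singleton])
      rw [sum_singleton] at h3
      linarith [b (k + 1) 0, hz (k + 1) 0 k.succ_ne_zero, Real.norm_eq_abs ((a (k + 1) - a 0) i),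
        norm_le_norm_add_norm_sub' (J (a (k + 1) - a 0)) (z (k + 1) - z 0)]
  have hρ : 0 < δ / (N + 1) := by positivity
  obtain ⟨m, hm⟩ := Metric.cauchySeq_iff.1 h2.cauchySeq _ hρ
  refine ⟨φ (m + 1) + 1, φ m + 1, _, (Nat.succ_lt_succ (h1 m.lt_succ_self)).ne', b _ _, ?_⟩
  refine (sum_le_card_nsmul _ _ (δ / (N + 1)) fun i hi => ?_).trans ?_
  · have := (dist_pi_lt_iff hρ).1 (hm (m + 1) m.le_succ m le_rfl) ⟨i, mem_range.1 hi⟩
    simpa [Real.dist_eq] using this.le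
  · rw [card_range, nsmul_eq_mul, ← mul_div_assoc, div_le_iff₀ (by positivity)]
    nlinarith

theorem key (hJ : DenseRange J)
    (h : ∀ a, IsLUB {s | ∃ C : Finset ℕ, StrictMonoOn f C ∧ s = ∑ i ∈ C, |a i|} ‖J a‖)
    (x y : X) (z w : ℕ → X) (hx : ‖x‖ ≤ 1) (hy : ‖y‖ ≤ 1)
    (hz : ∀ k l, k ≠ l → ‖z k - z l‖ ≤ 1 ∧ 2 ≤ ‖x + (z k - z l)‖ ∧ ‖y + (z k - z l)‖ ≤ 1)
    (hw : ∀ k l, k ≠ l → ‖w k - w l‖ ≤ 1 ∧ 2 ≤ ‖y + (w k - w l)‖ ∧ ‖x + (w k - w l)‖ ≤ 1) :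
    False := by
  have h' : ∀ a (C : Finset ℕ), StrictMonoOn f C → ∑ i ∈ C, |a i| ≤ ‖J a‖ :=
    fun a C hC => (h a).1 ⟨C, hC, rfl⟩
  have hδ : (0 : ℝ) < 1 / 100 := by norm_num
  obtain ⟨a, ha⟩ := hJ.exists_dist_lt x hδ
  obtain ⟨b, hb⟩ := hJ.exists_dist_lt y hδ
  obtain ⟨N, hN⟩ := (a.support ∪ b.support).exists_nat_subset_range
  have a0 : ∀ i, N ≤ i → a i = 0 := fun i hi => Finsupp.notMem_support_iff.1 fun c =>
    not_lt.2 hi (mem_range.1 (hN (mem_union_left _ c)))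
  have b0 : ∀ i, N ≤ i → b i = 0 := fun i hi => Finsupp.notMem_support_iff.1 fun c =>
    not_lt.2 hi (mem_range.1 (hN (mem_union_right _ c)))
  obtain ⟨k, l, c, c1, c2, c3⟩ := pick hJ h' z (fun k l e => (hz k l e).1) N hδ
  obtain ⟨m, n, d, d1, d2, d3⟩ := pick hJ h' w (fun k l e => (hw k l e).1) N hδ
  obtain ⟨z1, z2, z3⟩ := hz k l c1
  obtain ⟨w1, w2, w3⟩ := hw m n d1
  rw [dist_comm, dist_eq_norm] at ha hb
  have e : ∀ (p q : ℕ →₀ ℝ) (u v : X), ‖J p - u‖ < 1 / 100 → ‖J q - v‖ ≤ 2 * (1 / 100) →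
      |‖J (p + q)‖ - ‖u + v‖| ≤ 3 / 100 := fun p q u v h1 h2 => by
    refine (abs_norm_sub_norm_le _ _).trans ?_
    rw [map_add, add_sub_add_comm]
    linarith [norm_add_le (J p - u) (J q - v)]
  obtain ⟨_, ⟨C, hC, rfl⟩, C1, -⟩ := (h (a + c)).exists_between (sub_lt_self _ hδ)
  obtain ⟨_, ⟨D, hD, rfl⟩, D1, -⟩ := (h (b + d)).exists_between (sub_lt_self _ hδ)
  have u1 := up a0 c3 C
  have u2 := up b0 d3 D
  have s : ∀ (E : Finset ℕ) (p : ℕ → Prop) [DecidablePred p], StrictMonoOn f E →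
      StrictMonoOn f (E.filter p) := fun E p _ hE => hE.mono (coe_subset.2 (filter_subset _ _))
  have v1 := h' a _ (s C (· < N) hC)
  have v2 := h' b _ (s D (· < N) hD)
  have v3 := h' c _ (s C (¬ · < N) hC)
  have v4 := h' d _ (s D (¬ · < N) hD)
  have e1 := abs_le.1 (e _ _ _ _ ha c2)
  have e2 := abs_le.1 (e _ _ _ _ hb d2)
  have e3 := abs_le.1 (e _ _ _ _ ha d2)
  have e4 := abs_le.1 (e _ _ _ _ hb c2)
  have n1 := norm_le_norm_add_norm_sub' (J a) x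
  have n2 := norm_le_norm_add_norm_sub' (J b) y
  have n3 := norm_le_norm_add_norm_sub' (J c) (z k - z l)
  have n4 := norm_le_norm_add_norm_sub' (J d) (w m - w n)
  by_cases hf : ∀ i ∈ C, i < N → ∀ j ∈ D, ¬ j < N → f i < f j
  · linarith [low h' a0 d3 hC hD hf]
  · refine absurd (low h' b0 c3 hD hC fun i hi i1 j hj j1 => ?_) (by linarith)
    push Not at hf
    obtain ⟨p, p1, p2, q, q1, q2, q3⟩ := hf
    exact (hD hi q1 (by omega)).trans_le (q3.trans (hC p1 hj (by omega)).le)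

end Pool.Agent.H.MP_adcce9_an
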